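import Mathlib

set_option autoImplicit false
open MeasureTheory Filter Topology

namespace Pool.Agent.Helper38_Gas

/-- The `1`-periodic square wave with values `±1`. -/
noncomputable def sg (y : ℝ) : ℝ := if Int.fract y < 1 / 2 then 1 else -1

lemma sg_add_half (y : ℝ) : sg (y + 1 / 2) = - sg y := by
  unfold sg
  have h0 := Int.fract_nonneg y
  have h1 := Int.fract_lt_one y
  by_cases h : Int.fract y < 1 / 2
  · have : Int.fract (y + 1 / 2) = Int.fract y + 1 / 2 := by
      rw [Int.fract_eq_iff]
      refine ⟨by linarith, by linarith, ⌊y⌋, ?_⟩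
      have := Int.floor_add_fract y
      linarith
    rw [this, if_pos h, if_neg (by linarith)]
  · have : Int.fract (y + 1 / 2) = Int.fract y - 1 / 2 := by
      rw [Int.fract_eq_iff]
      push Not at h
      refine ⟨by linarith, by linarith, ⌊y⌋ + 1, ?_⟩
      have := Int.floor_add_fract y
      push_cast
      linarith
    rw [this, if_neg h, if_pos (by linarith)]
    norm_num

lemma sg_cases (y : ℝ) : sg y = 1 ∨ sg y = -1 := by
  unfold sg; split_ifs <;> simp

lemma sg_sq (y : ℝ) : sg y * sg y = 1 := by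
  rcases sg_cases y with h | h <;> rw [h] <;> norm_num

lemma abs_sg (y : ℝ) : |sg y| = 1 := by
  rcases sg_cases y with h | h <;> rw [h] <;> norm_num

lemma measurable_sg : Measurable sg := by
  unfold sg
  exact Measurable.ite (measurableSet_lt measurable_fract measurable_const)
    measurable_const measurable_const

/-- The oscillating travelling profile. -/
noncomputable def r (n : ℕ) (z : ℝ × ℝ) : ℝ := sg (((n : ℝ) + 1) * (z.1 - 2 * z.2))

lemma r_cases (n : ℕ) (z : ℝ × ℝ) : r n z = 1 ∨ r n z = -1 := sg_cases _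
lemma r_sq (n : ℕ) (z : ℝ × ℝ) : r n z * r n z = 1 := sg_sq _
lemma abs_r (n : ℕ) (z : ℝ × ℝ) : |r n z| = 1 := abs_sg _

lemma measurable_r (n : ℕ) : Measurable (r n) := by
  unfold r
  exact measurable_sg.comp (by fun_prop)

lemma r_line (n : ℕ) (z : ℝ × ℝ) (t : ℝ) : r n (z + t • ((2 : ℝ), (1 : ℝ))) = r n z := by
  unfold r
  congr 1
  simp only [Prod.fst_add, Prod.snd_add, Prod.smul_mk, smul_eq_mul]
  ring

/-- half period shift -/
noncomputable def h (n : ℕ) : ℝ × ℝ := (1 / (2 * ((n : ℝ) + 1)), 0)

lemma r_shift (n : ℕ) (z : ℝ × ℝ) : r n (z + h n) = - r n z := by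
  unfold r h
  rw [← sg_add_half]
  congr 1
  have : (n : ℝ) + 1 ≠ 0 := by positivity
  simp
  field_simp
  ring

lemma h_tendsto : Tendsto h atTop (𝓝 0) := by
  unfold h
  have : Tendsto (fun n : ℕ => 1 / (2 * ((n : ℝ) + 1))) atTop (𝓝 0) := by
    have := (tendsto_one_div_add_atTop_nhds_zero_nat (𝕜 := ℝ)).const_mul (1 / 2)
    simp only [mul_zero] at this
    refine this.congr fun n => ?_
    have : (n : ℝ) + 1 ≠ 0 := by positivity
    field_simp
  exact this.prodMk_nhds tendsto_const_nhds

lemma integrable_r_mul {μ : Measure (ℝ × ℝ)} (n : ℕ) {g : ℝ × ℝ → ℝ} (hg : Integrable g μ) :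
    Integrable (fun z => r n z * g z) μ := by
  refine Integrable.mono' hg.norm ((measurable_r n).aestronglyMeasurable.mul hg.1) ?_
  refine Eventually.of_forall fun z => ?_
  rw [norm_mul, Real.norm_eq_abs, abs_r, one_mul]

lemma weak_cont {f : ℝ × ℝ → ℝ} (hf : Continuous f) (hs : HasCompactSupport f) :
    Tendsto (fun n => ∫ z, r n z * f z) atTop (𝓝 0) := by
  have hint : Integrable f := hf.integrable_of_hasCompactSupport hs
  have key : ∀ n, ∫ z, r n z * f z = (1 / 2) * ∫ z, r n z * (f z - f (z + h n)) := by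
    intro n
    have h1 : ∫ z, r n z * f z = ∫ z, r n (z + h n) * f (z + h n) :=
      (integral_add_right_eq_self (fun z => r n z * f z) (h n)).symm
    have h2 : ∫ z, r n (z + h n) * f (z + h n) = - ∫ z, r n z * f (z + h n) := by
      rw [← integral_neg]
      congr 1
      ext z
      rw [r_shift]; ring
    have h3 : ∫ z, r n z * (f z - f (z + h n)) =
        (∫ z, r n z * f z) - ∫ z, r n z * f (z + h n) := by
      rw [← integral_sub (integrable_r_mul n hint) (integrable_r_mul n (hint.comp_add_right _))]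
      congr 1
      ext z
      ring
    rw [h3]
    linarith [h1, h2]
  simp_rw [key]
  rw [show (0 : ℝ) = (1 / 2) * 0 by norm_num]
  refine Tendsto.const_mul _ ?_
  obtain ⟨R, -, hR⟩ : ∃ R : ℝ, 0 < R ∧ ∀ x : ℝ × ℝ, R ≤ ‖x‖ → f x = 0 := hs.exists_pos_le_norm
  obtain ⟨C, hC⟩ : ∃ C : ℝ, ∀ x, ‖f x‖ ≤ C := by
    obtain ⟨C, hC⟩ := hf.bounded_above_of_compact_support hs
    exact ⟨C, hC⟩
  have hC0 : 0 ≤ C := (norm_nonneg _).trans (hC 0)
  have h0 : ∫ z : ℝ × ℝ, (0 : ℝ) = 0 := by simp
  rw [← h0]
  refine tendsto_integral_of_dominated_convergence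
    (fun z => (Metric.closedBall (0 : ℝ × ℝ) (R + 1)).indicator (fun _ => 2 * C) z) ?_ ?_ ?_ ?_
  · intro n
    refine (measurable_r n).aestronglyMeasurable.mul ?_
    exact (hf.sub (hf.comp (continuous_id.add continuous_const))).aestronglyMeasurable
  · refine (integrable_indicator_iff Metric.isClosed_closedBall.measurableSet).2 ?_
    exact continuous_const.continuousOn.integrableOn_compact (isCompact_closedBall _ _)
  · intro n
    refine Eventually.of_forall fun z => ?_
    rw [norm_mul, Real.norm_eq_abs (r n z), abs_r, one_mul]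
    by_cases hz : z ∈ Metric.closedBall (0 : ℝ × ℝ) (R + 1)
    · rw [Set.indicator_of_mem hz]
      calc ‖f z - f (z + h n)‖ ≤ ‖f z‖ + ‖f (z + h n)‖ := norm_sub_le _ _
        _ ≤ C + C := add_le_add (hC _) (hC _)
        _ = 2 * C := by ring
    · rw [Set.indicator_of_notMem hz]
      have hz' : R + 1 < ‖z‖ := by
        simpa [Metric.mem_closedBall] using hz
      have hh : ‖h n‖ ≤ 1 := by
        unfold h
        rw [Prod.norm_def]
        simp only [norm_zero]
        refine max_le ?_ zero_le_one
        rw [Real.norm_eq_abs, abs_of_nonneg (by positivity)]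
        rw [div_le_one (by positivity)]
        have : (0 : ℝ) ≤ n := Nat.cast_nonneg n
        linarith
      have h1 : f z = 0 := hR z (by linarith)
      have h2 : f (z + h n) = 0 := by
        apply hR
        have := norm_sub_le_norm_add z (h n)
        linarith
      rw [h1, h2]; simp
  · refine Eventually.of_forall fun z => ?_
    have h1 : Tendsto (fun n => f z - f (z + h n)) atTop (𝓝 (f z - f (z + 0))) :=
      tendsto_const_nhds.sub ((hf.tendsto _).comp (tendsto_const_nhds.add h_tendsto))
    rw [add_zero, sub_self] at h1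
    rw [tendsto_zero_iff_norm_tendsto_zero] at h1 ⊢
    refine h1.congr fun n => ?_
    rw [norm_mul, Real.norm_eq_abs (r n z), abs_r, one_mul]

lemma weak_full {g : ℝ × ℝ → ℝ} (hg : Integrable g) :
    Tendsto (fun n => ∫ z, r n z * g z) atTop (𝓝 0) := by
  refine Metric.tendsto_nhds.mpr fun ε hε => ?_
  obtain ⟨f, hs, hfg, hf, hfi⟩ := hg.exists_hasCompactSupport_integral_sub_le (half_pos hε)
  filter_upwards [Metric.tendsto_nhds.mp (weak_cont hf hs) _ (half_pos hε)] with n hn
  rw [dist_zero_right] at hn ⊢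
  have h1 : ∫ z, r n z * g z = (∫ z, r n z * (g z - f z)) + ∫ z, r n z * f z := by
    have e := integral_add (integrable_r_mul n (hg.sub hfi)) (integrable_r_mul n hfi)
    simp only [Pi.sub_apply] at e
    rw [← e]
    congr 1; ext z; ring
  have h2 : ‖∫ z, r n z * (g z - f z)‖ ≤ ε / 2 := by
    refine (norm_integral_le_integral_norm _).trans (le_trans (le_of_eq ?_) hfg)
    congr 1; ext z
    rw [norm_mul, Real.norm_eq_abs (r n z), abs_r, one_mul]
  rw [h1]
  calc _ ≤ _ + _ := norm_add_le _ _
    _ < ε / 2 + ε / 2 := add_lt_add_of_le_of_lt h2 hn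
    _ = ε := by ring

lemma measurableSet_H : MeasurableSet {z : ℝ × ℝ | 0 < z.2} :=
  measurableSet_lt measurable_const measurable_snd

lemma weak {g : ℝ × ℝ → ℝ} (hg : Integrable g (volume.restrict {z : ℝ × ℝ | 0 < z.2})) :
    Tendsto (fun n => ∫ z in {z : ℝ × ℝ | 0 < z.2}, r n z * g z) atTop (𝓝 0) := by
  have hg' : Integrable ({z : ℝ × ℝ | 0 < z.2}.indicator g) :=
    (integrable_indicator_iff measurableSet_H).2 hg
  refine (weak_full hg').congr fun n => ?_
  rw [← integral_indicator measurableSet_H]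
  congr 1
  ext z
  by_cases hz : z ∈ {z : ℝ × ℝ | 0 < z.2}
  · simp [Set.indicator_of_mem hz]
  · simp [Set.indicator_of_notMem hz]

/-- integration by parts against a function constant in direction `w` -/
lemma ibp {f : ℝ × ℝ → ℝ} (w : ℝ × ℝ) (hfm : Measurable f) (hfb : ∀ z, |f z| ≤ 1)
    (hline : ∀ z (t : ℝ), f (z + t • w) = f z)
    {φ : ℝ × ℝ → ℝ} (hφ : ContDiff ℝ ((⊤ : ℕ∞) : WithTop ℕ∞) φ) (hc : HasCompactSupport φ) :
    ∫ z, f z * fderiv ℝ φ z w = 0 := by
  have hφ1 : Differentiable ℝ φ := hφ.differentiable (by simp)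
  have hcf : Continuous (fderiv ℝ φ) := hφ.continuous_fderiv (by simp)
  have hcont : Continuous fun z => fderiv ℝ φ z w := hcf.clm_apply continuous_const
  have hsupp : HasCompactSupport fun z => fderiv ℝ φ z w := hc.fderiv_apply (𝕜 := ℝ) w
  have hmul : ∀ {g : ℝ × ℝ → ℝ}, Continuous g → HasCompactSupport g →
      Integrable (fun z => f z * g z) := by
    intro g hg hgs
    have hgi : Integrable g := hg.integrable_of_hasCompactSupport hgs
    refine Integrable.mono' hgi.norm (hfm.aestronglyMeasurable.mul hgi.1) ?_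
    refine Eventually.of_forall fun z => ?_
    rw [norm_mul, Real.norm_eq_abs (f z)]
    exact mul_le_of_le_one_left (norm_nonneg _) (hfb z)
  have key := integral_bilinear_hasLineDerivAt_right_eq_neg_left_of_integrable
    (μ := (volume : Measure (ℝ × ℝ))) (f := f) (f' := fun _ => 0) (g := φ)
    (g' := fun z => fderiv ℝ φ z w) (v := w) (B := ContinuousLinearMap.mul ℝ ℝ)
    (by simp) (by simpa using hmul hcont hsupp) (by simpa using hmul hφ.continuous hc)
    (by
      intro x _
      unfold HasLineDerivAt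
      simp_rw [hline]
      exact hasDerivAt_const _ _)
    (by
      intro x _
      exact (hφ1 x).hasFDerivAt.hasLineDerivAt w)
  simpa using key

end Pool.Agent.Helper38_Gas
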